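import Pool.Agent.V7H13.BB.Count
import Pool.Agent.H170R2.PC.Asym

/-!
Asymptotics for the energy of sums of reciprocals with coefficients up to `N^γ`.
-/

open Finset Filter Topology

namespace Pool.Agent.V7H13.BB

open Pool.Agent.H170R2.PC

/-- the exponent with `h` summands and coefficients up to `N^γ`, for `N^β` primes near `N^α` -/
noncomputable def expo (α β γ : ℝ) (h : ℕ) : ℝ :=
  min ((3 - 3 * α + β + γ - (1 - α + γ) / h) / 2) (2 - 2 * α + (α + β - 1 - γ) / (2 * h))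

theorem exp_words {α β γ : ℝ} (hα : 1 / 2 < α) (hα1 : α < 1) (hβ : 1 - α ≤ β) (hγ : 0 ≤ γ)
    (hγα : γ < α) {h : ℕ} (hh : 1 ≤ h) {ε : ℝ} (hε : 0 < ε) :
    ∃ N₀ : ℕ, ∀ N : ℕ, N₀ ≤ N → ∀ D : Finset ℕ, (∀ p ∈ D, InRange α N p) →
      (N : ℝ) ^ β ≤ (D.card : ℝ) → ∀ a : (p : ℕ) → ZMod p,
        (N : ℝ) ^ (expo α β γ h - ε) ≤ ((Cov D a N).card : ℝ) := by
  have hα0 : 0 < α := by linarith
  have hhR : (1 : ℝ) ≤ h := by exact_mod_cast hh
  have hh0 : (0 : ℝ) < h := by linarith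
  set m := expo α β γ h with hm
  set η : ℝ := min (ε / 8) (1 / 2) with hη
  have hη0 : 0 < η := lt_min (by linarith) (by norm_num)
  have hη1 : η ≤ 1 / 2 := min_le_right _ _
  have hηε : 8 * η ≤ ε := by
    have := min_le_left (ε / 8) (1 / 2 : ℝ)
    linarith
  have hd : 0 < 1 - α := by linarith
  have hdg : 0 < 1 - α + γ := by linarith
  set τ : ℝ := α + β - 1 with hτ
  have hτ0 : 0 ≤ τ := by rw [hτ]; linarith
  -- the exponents
  set e₁ : ℝ := (1 - α + γ) / h - γ with he₁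
  set e : ℝ := max e₁ 0 with he
  have he0 : 0 ≤ e := le_max_right _ _
  have hm2 : m ≤ 2 - 2 * α + (τ - γ) / (2 * h) := by
    rw [hm, expo]
    exact min_le_right _ _
  have hτh : (τ - γ) / (2 * h) ≤ τ / 2 := by
    rw [div_le_iff₀ (by positivity)]
    have : τ ≤ τ * h := le_mul_of_one_le_right hτ0 hhR
    linarith
  have hm3 : m ≤ 1 - α + β := by
    have : m ≤ 2 - 2 * α + τ / 2 := by linarith
    rw [hτ] at this hτ0
    linarith
  have hm1 : 2 * m ≤ 3 - 3 * α + β - e := by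
    rcases le_total e₁ 0 with h0 | h0
    · rw [he, max_eq_right h0]
      have : m ≤ 2 - 2 * α + τ / 2 := by linarith
      rw [hτ] at this
      linarith
    · rw [he, max_eq_left h0, he₁]
      have : m ≤ (3 - 3 * α + β + γ - (1 - α + γ) / h) / 2 := by
        rw [hm, expo]
        exact min_le_left _ _
      linarith
  -- constants
  set C₁ : ℝ := 2 ^ h * h.factorial * (2 * (2 * h + 1)) with hC₁
  set C₃ : ℝ := 4 ^ h * (2 * (2 * h + 1)) * (2 * h) with hC₃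
  have hC₁0 : 0 < C₁ := by positivity
  have hev : ∀ᶠ N : ℕ in atTop, ∀ D : Finset ℕ, (∀ p ∈ D, InRange α N p) →
      (N : ℝ) ^ β ≤ (D.card : ℝ) → ∀ a : (p : ℕ) → ZMod p,
        (N : ℝ) ^ (m - ε) ≤ ((Cov D a N).card : ℝ) := by
    filter_upwards [ev_div hα0 hα1 hη0 2 (by norm_num),
      ev_const 3 hη0, ev_const (2 * C₁ ^ ((h : ℝ)⁻¹) + (2 * h + 1)) hη0, ev_const C₃ hη0,
      ev_const ((2 * h * 2 ^ (2 * h - 1) : ℕ) + 1 : ℝ) hα0,
      eventually_gt_atTop 1] with N h2 h3 h4 h5 h6 hN1 D hDr hDc a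
    have hN0 : (0 : ℝ) < N := by exact_mod_cast (by omega : 0 < N)
    have hN1' : (1 : ℝ) < N := by exact_mod_cast hN1
    have hDPD : ∀ p ∈ D, p ∈ PD α N := fun p hp => mem_PD.mpr (hDr p hp)
    set Y := ⌈(N : ℝ) ^ α⌉₊ with hY
    have hYle : (N : ℝ) ^ α ≤ Y := Nat.le_ceil _
    have hY0 : 0 < Y := Nat.ceil_pos.mpr (by positivity)
    set c := N / (2 * Y) - 1 with hc
    have hc0 : (0 : ℝ) < (c : ℝ) := lt_of_lt_of_le (Real.rpow_pos_of_pos hN0 _) h2
    have hcpos : 0 < c := by exact_mod_cast hc0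
    -- the range of the coefficients
    set G := ⌊(N : ℝ) ^ γ⌋₊ with hG
    have hNγ : (1 : ℝ) ≤ (N : ℝ) ^ γ := Real.one_le_rpow hN1'.le hγ
    have hG1 : 1 ≤ G := Nat.le_floor (by simpa using hNγ)
    have hGle : (G : ℝ) ≤ (N : ℝ) ^ γ := Nat.floor_le (by positivity)
    have hG1R : (1 : ℝ) ≤ G := by exact_mod_cast hG1
    have hGge : (N : ℝ) ^ γ ≤ 2 * G := by
      have := (Nat.lt_floor_add_one ((N : ℝ) ^ γ)).le
      linarith
    have hGY : G < Y := by
      have : (G : ℝ) < Y := hGle.trans_lt ((Real.rpow_lt_rpow_of_exponent_lt hN1' hγα).trans_le hYle)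
      exact_mod_cast this
    -- conditions for the finite inequality
    have hYbig : 2 * h * 2 ^ (2 * h - 1) < Y := by
      have : ((2 * h * 2 ^ (2 * h - 1) : ℕ) : ℝ) < Y := by linarith
      exact_mod_cast this
    have hNY : N < Y ^ 2 := by
      have e1 : (N : ℝ) < ((N : ℝ) ^ α) ^ 2 := by
        rw [← Real.rpow_mul_natCast hN0.le]
        nth_rewrite 1 [← Real.rpow_one (N : ℝ)]
        refine Real.rpow_lt_rpow_of_exponent_lt hN1' ?_
        push_cast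
        linarith
      have e2 : (N : ℝ) < (Y : ℝ) ^ 2 := e1.trans_le (pow_le_pow_left₀ (by positivity) hYle 2)
      exact_mod_cast e2
    have hDprop : ∀ p ∈ D, p.Prime ∧ Y ≤ p ∧ p ≤ 2 * Y := fun p hp => PD_prop p (hDPD p hp)
    have hcl : ∀ p ∈ D, c + 1 ≤ (Cl N a p).card := by
      intro p hp
      obtain ⟨q1, q2, q3⟩ := hDprop p hp
      refine card_Cl_ge q1.pos ?_
      have e1 : (c + 1) * p ≤ (c + 1) * (2 * Y) := Nat.mul_le_mul_left _ q3
      have e2 : c + 1 ≤ N / (2 * Y) := by omega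
      exact e1.trans ((Nat.mul_le_mul_right _ e2).trans (Nat.div_mul_le_self _ _))
    have hK : ((N / Y : ℕ) : ℝ) ≤ (N : ℝ) ^ (1 - α) := by
      refine Nat.cast_div_le.trans ?_
      rw [div_le_iff₀ (by exact_mod_cast hY0)]
      calc (N : ℝ) = (N : ℝ) ^ (1 - α) * (N : ℝ) ^ α := by
            rw [← Real.rpow_add hN0]; simp
        _ ≤ _ := by gcongr
    have hGK : (G : ℝ) * ((N / Y : ℕ) : ℝ) ≤ (N : ℝ) ^ (1 - α + γ) := by
      rw [Real.rpow_add hN0, mul_comm]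
      gcongr
    have hX1 : (1 : ℝ) ≤ (N : ℝ) ^ (1 - α + γ) := Real.one_le_rpow hN1'.le hdg.le
    have hL : (2 * (h * (G * (N / Y : ℕ))) + 1 : ℝ) ≤ (2 * h + 1) * (N : ℝ) ^ (1 - α + γ) := by
      have : (2 * h : ℝ) * (G * ((N / Y : ℕ) : ℝ)) ≤ 2 * h * (N : ℝ) ^ (1 - α + γ) := by gcongr
      linarith
    -- choice of b
    set X : ℝ := (C₁ * (N : ℝ) ^ (1 - α + γ)) ^ ((h : ℝ)⁻¹) with hX
    have hX0 : 0 ≤ X := by positivity
    set b := ⌈X / G⌉₊ + 2 * h with hb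
    have hbge : X ≤ (b : ℝ) * G := by
      have e1 : X / G ≤ (b : ℝ) := by
        rw [hb]
        push_cast
        have := Nat.le_ceil (X / G)
        linarith
      rwa [div_le_iff₀ (by linarith)] at e1
    have hb2 : 2 ^ h * h.factorial * (2 * (2 * (h * (G * (N / Y))) + 1)) ≤ (b * G) ^ h := by
      have e1 : (2 ^ h * h.factorial * (2 * (2 * (h * (G * (N / Y : ℕ))) + 1)) : ℝ)
          ≤ C₁ * (N : ℝ) ^ (1 - α + γ) := by
        rw [hC₁]
        calc (2 ^ h * h.factorial * (2 * (2 * (h * (G * (N / Y : ℕ))) + 1)) : ℝ)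
            ≤ 2 ^ h * h.factorial * (2 * ((2 * h + 1) * (N : ℝ) ^ (1 - α + γ))) := by gcongr
          _ = _ := by ring
      have e2 : X ^ h ≤ ((b : ℝ) * G) ^ h := pow_le_pow_left₀ (by positivity) hbge h
      rw [hX, Real.rpow_inv_natCast_pow (by positivity) (by omega)] at e2
      exact_mod_cast e1.trans e2
    have hble : (b : ℝ) ≤ (N : ℝ) ^ (e + η) := by
      have e1 := Nat.ceil_lt_add_one (show 0 ≤ X / G by positivity)
      have e2 : X = C₁ ^ ((h : ℝ)⁻¹) * (N : ℝ) ^ ((1 - α + γ) / h) := by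
        rw [hX, Real.mul_rpow hC₁0.le (by positivity), ← Real.rpow_mul hN0.le, div_eq_mul_inv]
      have e3 : (1 : ℝ) ≤ (N : ℝ) ^ e := Real.one_le_rpow hN1'.le he0
      have e4 : X / G ≤ 2 * C₁ ^ ((h : ℝ)⁻¹) * (N : ℝ) ^ e := by
        rw [div_le_iff₀ (by linarith)]
        have e5 : (N : ℝ) ^ ((1 - α + γ) / h) = (N : ℝ) ^ e₁ * (N : ℝ) ^ γ := by
          rw [← Real.rpow_add hN0, he₁]
          congr 1
          ring
        have e6 : (N : ℝ) ^ e₁ ≤ (N : ℝ) ^ e :=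
          Real.rpow_le_rpow_of_exponent_le hN1'.le (le_max_left _ _)
        rw [e2, e5]
        calc C₁ ^ ((h : ℝ)⁻¹) * ((N : ℝ) ^ e₁ * (N : ℝ) ^ γ)
            ≤ C₁ ^ ((h : ℝ)⁻¹) * ((N : ℝ) ^ e * (2 * G)) := by gcongr
          _ = _ := by ring
      have e7 : (b : ℝ) ≤ (2 * C₁ ^ ((h : ℝ)⁻¹) + (2 * h + 1)) * (N : ℝ) ^ e := by
        rw [hb]
        push_cast
        rw [add_mul]
        have : (2 * h + 1 : ℝ) ≤ (2 * h + 1) * (N : ℝ) ^ e :=
          le_mul_of_one_le_right (by positivity) e3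
        linarith
      refine e7.trans ?_
      rw [add_comm e, Real.rpow_add hN0]
      exact mul_le_mul_of_nonneg_right h4 (by positivity)
    have hmainN := bush (a := a) (h := h) (G := G) (b := b) hDprop hh hG1 hGY hYbig hNY hcl
      (by omega) hb2
    set s := (Cov D a N).card with hs
    by_contra hcon
    rw [not_le] at hcon
    have hsm : (s : ℝ) < (N : ℝ) ^ (m - 8 * η) :=
      hcon.trans_le (Real.rpow_le_rpow_of_exponent_le hN1'.le (by linarith))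
    have h3s : 3 * (s : ℝ) ≤ (N : ℝ) ^ (m - 7 * η) := by
      calc 3 * (s : ℝ) ≤ (N : ℝ) ^ η * (N : ℝ) ^ (m - 8 * η) := by gcongr
        _ = _ := by rw [← Real.rpow_add hN0]; congr 1; ring
    rcases hmainN with hA | hA | hA
    · have hA' : (c : ℝ) * D.card ≤ 3 * s := by exact_mod_cast hA
      have e1 : (N : ℝ) ^ (1 - α - η) * (N : ℝ) ^ β ≤ (N : ℝ) ^ (m - 7 * η) := by
        refine le_trans ?_ (hA'.trans h3s)
        gcongr
      rw [← Real.rpow_add hN0, Real.rpow_le_rpow_left_iff hN1'] at e1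
      linarith
    · have hA' : (c : ℝ) ^ 3 * D.card ≤ 3 * b * s ^ 2 := by exact_mod_cast hA
      have e0 : 3 * (b : ℝ) * s ^ 2 ≤ (N : ℝ) ^ η * (N : ℝ) ^ (e + η)
          * ((N : ℝ) ^ (m - 8 * η)) ^ 2 := by
        gcongr
      have e1 : ((N : ℝ) ^ (1 - α - η)) ^ 3 * (N : ℝ) ^ β
          ≤ (N : ℝ) ^ η * (N : ℝ) ^ (e + η) * ((N : ℝ) ^ (m - 8 * η)) ^ 2 := by
        refine le_trans ?_ (hA'.trans e0)
        gcongr
      rw [← Real.rpow_mul_natCast hN0.le, ← Real.rpow_mul_natCast hN0.le, ← Real.rpow_add hN0,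
        ← Real.rpow_add hN0, ← Real.rpow_add hN0, Real.rpow_le_rpow_left_iff hN1'] at e1
      push_cast at e1
      linarith
    · have hA' : (c : ℝ) ^ (4 * h) * D.card ≤ (3 * s) ^ (2 * h) *
          (4 ^ h * (2 * (2 * (h * (G * (N / Y : ℕ))) + 1)) * (2 * h)) := by exact_mod_cast hA
      have e0 : (4 ^ h * (2 * (2 * (h * (G * (N / Y : ℕ))) + 1)) * (2 * h) : ℝ)
          ≤ (N : ℝ) ^ η * (N : ℝ) ^ (1 - α + γ) := by
        calc (4 ^ h * (2 * (2 * (h * (G * (N / Y : ℕ))) + 1)) * (2 * h) : ℝ)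
            ≤ 4 ^ h * (2 * ((2 * h + 1) * (N : ℝ) ^ (1 - α + γ))) * (2 * h) := by gcongr
          _ = C₃ * (N : ℝ) ^ (1 - α + γ) := by rw [hC₃]; ring
          _ ≤ _ := by gcongr
      have e1 : ((N : ℝ) ^ (1 - α - η)) ^ (4 * h) * (N : ℝ) ^ β
          ≤ ((N : ℝ) ^ (m - 7 * η)) ^ (2 * h) * ((N : ℝ) ^ η * (N : ℝ) ^ (1 - α + γ)) := by
        have l1 : ((N : ℝ) ^ (1 - α - η)) ^ (4 * h) * (N : ℝ) ^ β
            ≤ (c : ℝ) ^ (4 * h) * D.card := by gcongr
        have l2 : (3 * (s : ℝ)) ^ (2 * h) *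
            (4 ^ h * (2 * (2 * (h * (G * (N / Y : ℕ))) + 1)) * (2 * h))
            ≤ ((N : ℝ) ^ (m - 7 * η)) ^ (2 * h) * ((N : ℝ) ^ η * (N : ℝ) ^ (1 - α + γ)) := by
          gcongr
        exact l1.trans (hA'.trans l2)
      rw [← Real.rpow_mul_natCast hN0.le, ← Real.rpow_mul_natCast hN0.le, ← Real.rpow_add hN0,
        ← Real.rpow_add hN0, ← Real.rpow_add hN0, Real.rpow_le_rpow_left_iff hN1'] at e1
      push_cast at e1
      have e5 : m * (2 * h) ≤ (2 - 2 * α) * (2 * h) + (τ - γ) := by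
        have : (2 - 2 * α + (τ - γ) / (2 * h)) * (2 * h) = (2 - 2 * α) * (2 * h) + (τ - γ) := by
          field_simp
        rw [← this]
        exact mul_le_mul_of_nonneg_right hm2 (by positivity)
      have e6 : η ≤ h * η := le_mul_of_one_le_left hη0.le hhR
      rw [hτ] at e5
      have e7 : (1 - α - η) * (4 * h) + β ≤ (m - 7 * η) * (2 * h) + (η + (1 - α + γ)) := by
        refine e1.trans (le_of_eq ?_)
        ring
      clear e1
      have e8 : (1 - α - η) * (4 * h) = 2 * ((2 - 2 * α) * h) - 4 * (h * η) := by ring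
      have e9 : (m - 7 * η) * (2 * h) = m * (2 * h) - 14 * (h * η) := by ring
      rw [e8, e9] at e7
      linarith only [e5, e6, e7, hη0]
  obtain ⟨N₀, hN₀⟩ := eventually_atTop.mp hev
  exact ⟨N₀, fun N hN => hN₀ N hN⟩

end Pool.Agent.V7H13.BB
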