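import Pool.Agent.V7H13.BB.Words

/-!
The energy inequality at one point, with coefficients.
-/

open Finset

namespace Pool.Agent.V7H13.BB

open Pool.Agent.H170R2.PC

open Classical in
/-- pairs of distinct words of primes through `n` whose numerator is divisible by `q` -/
noncomputable def Nw (D : Finset ℕ) (a : (p : ℕ) → ZMod p) (h G n q : ℕ) :
    Finset (((T : Finset ℕ) × ((p : ℕ) → p ∈ T → ℕ)) × ((T : Finset ℕ) × ((p : ℕ) → p ∈ T → ℕ))) :=
  ((Words h G (Dn D a n)) ×ˢ (Words h G (Dn D a n))).filter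
    fun x => x.1 ≠ x.2 ∧ (q : ℤ) ∣ wnum x.1 x.2

theorem energy_point {D : Finset ℕ} {a : (p : ℕ) → ZMod p} {Y N h G n q : ℕ}
    (hD : ∀ p ∈ D, p.Prime ∧ Y ≤ p ∧ p ≤ 2 * Y) (hY : 0 < Y)
    (hn : n ∈ Icc 1 N) (hq : q ∈ D) (hqn : q ∉ Dn D a n) :
    ((An D a N n q).card.choose h * G ^ h) ^ 2
      ≤ (2 * (h * (G * (N / Y))) + 1) *
        ((An D a N n q).card.choose h * G ^ h + (Nw D a h G n q).card) := by
  classical
  set A := An D a N n q with hA
  have hmem : ∀ p ∈ A, p ∈ D ∧ (n : ZMod p) = a p ∧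
      ∃ z ∈ Icc 1 N, (z : ZMod p) = a p ∧ (z : ZMod q) = a q := by
    intro p hp
    rw [hA, An, mem_filter, Dn, mem_filter] at hp
    exact ⟨hp.1.1, hp.1.2, hp.2⟩
  have hex : ∀ p : ℕ, ∃ z : ℕ, p ∈ A → z ∈ Icc 1 N ∧ (z : ZMod p) = a p ∧ (z : ZMod q) = a q := by
    intro p
    by_cases hp : p ∈ A
    · obtain ⟨z, hz⟩ := (hmem p hp).2.2
      exact ⟨z, fun _ => hz⟩
    · exact ⟨0, fun h => absurd h hp⟩
  choose z hz using hex
  have hdvd : ∀ p ∈ A, (p : ℤ) ∣ (z p : ℤ) - n := by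
    intro p hp
    rw [← ZMod.intCast_zmod_eq_zero_iff_dvd]
    push_cast
    rw [(hz p hp).2.1, (hmem p hp).2.1, sub_self]
  let k : ℕ → ℤ := fun p => ((z p : ℤ) - n) / p
  have hk : ∀ p ∈ A, k p * p = (z p : ℤ) - n := fun p hp => Int.ediv_mul_cancel (hdvd p hp)
  have hkb : ∀ p ∈ A, |k p| ≤ ((N / Y : ℕ) : ℤ) := by
    intro p hp
    have h1 := hk p hp
    have h2 := mem_Icc.mp (hz p hp).1
    have h3 := mem_Icc.mp hn
    have h4 : Y ≤ p := (hD p (hmem p hp).1).2.1
    have h5 : |k p| * (p : ℤ) ≤ N := by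
      have : |k p| * (p : ℤ) = |(z p : ℤ) - n| := by
        rw [← h1, abs_mul, Nat.abs_cast]
      rw [this, abs_le]
      constructor <;> omega
    have h6 : |k p| * (Y : ℤ) ≤ N := by
      refine le_trans ?_ h5
      exact mul_le_mul_of_nonneg_left (by exact_mod_cast h4) (abs_nonneg _)
    rw [Int.natCast_div]
    exact Int.le_ediv_of_mul_le (by exact_mod_cast hY) h6
  set K := N / Y with hK
  -- the words
  set P := Words h G A with hP
  have hPc : P.card = A.card.choose h * G ^ h := card_Words h G A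
  have hsum : ∀ w ∈ P, (∑ p ∈ w.1, co w p * k p)
      ∈ Icc (-((h * (G * K) : ℕ) : ℤ)) ((h * (G * K) : ℕ) : ℤ) := by
    intro w hw
    have hw' := mem_Words.mp hw
    have : |∑ p ∈ w.1, co w p * k p| ≤ ((h * (G * K) : ℕ) : ℤ) := by
      refine (abs_sum_le_sum_abs _ _).trans ?_
      refine (sum_le_card_nsmul w.1 _ ((G * K : ℕ) : ℤ) fun p hp => ?_).trans ?_
      · rw [abs_mul]
        have b1 := co_bounds hw p
        have e1 : |co w p| ≤ G := by rw [abs_of_nonneg b1.1]; exact b1.2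
        push_cast
        exact mul_le_mul e1 (hkb p (hw'.1.1 hp)) (abs_nonneg _) (by positivity)
      · rw [hw'.1.2, nsmul_eq_mul]
        push_cast
        exact le_rfl
    rw [mem_Icc]
    exact abs_le.mp this
  have hcs := sq_card_le_fiber P (fun w => ∑ p ∈ w.1, co w p * k p) _ hsum
  rw [hPc] at hcs
  have hcard : (Icc (-((h * (G * K) : ℕ) : ℤ)) ((h * (G * K) : ℕ) : ℤ)).card
      = 2 * (h * (G * K)) + 1 := by
    rw [Int.card_Icc]
    omega
  rw [hcard] at hcs
  refine hcs.trans (Nat.mul_le_mul_left _ ?_)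
  -- split equal and different words
  have hAD : A ⊆ Dn D a n := filter_subset _ _
  have hsplit : ((P ×ˢ P).filter fun x =>
        (∑ p ∈ x.1.1, co x.1 p * k p) = ∑ p ∈ x.2.1, co x.2 p * k p)
      ⊆ (P.image fun w => (w, w)) ∪ Nw D a h G n q := by
    intro x hx
    rw [mem_filter, mem_product] at hx
    by_cases hxe : x.1 = x.2
    · refine mem_union_left _ (mem_image.mpr ⟨x.1, hx.1.1, ?_⟩)
      exact Prod.ext rfl hxe
    · refine mem_union_right _ ?_
      rw [Nw, mem_filter, mem_product]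
      have h1 := mem_Words.mp hx.1.1
      have h2 := mem_Words.mp hx.1.2
      refine ⟨⟨Words_mono hAD hx.1.1, Words_mono hAD hx.1.2⟩, hxe, ?_⟩
      have hc : a q - (n : ZMod q) ≠ 0 := by
        intro h0
        apply hqn
        rw [Dn, mem_filter]
        exact ⟨hq, (sub_eq_zero.mp h0).symm⟩
      refine dvd_wnum (hD q hq).1 hc (k := k) (fun p hp => ?_) ?_
      · have hpA : p ∈ A := by
          rcases mem_union.mp hp with h' | h'
          · exact h1.1.1 h'
          · exact h2.1.1 h'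
        have e1 := congrArg (fun w : ℤ => (w : ZMod q)) (hk p hpA)
        push_cast at e1
        rw [e1, (hz p hpA).2.2]
      · have e1 : ∑ p ∈ x.1.1 ∪ x.2.1, co x.1 p * k p = ∑ p ∈ x.1.1, co x.1 p * k p := by
          symm
          refine sum_subset subset_union_left fun p _ hp => ?_
          rw [co_zero hp, zero_mul]
        have e2 : ∑ p ∈ x.1.1 ∪ x.2.1, co x.2 p * k p = ∑ p ∈ x.2.1, co x.2 p * k p := by
          symm
          refine sum_subset subset_union_right fun p _ hp => ?_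
          rw [co_zero hp, zero_mul]
        rw [e1, e2]
        exact hx.2
  refine (card_le_card hsplit).trans ((card_union_le _ _).trans ?_)
  refine Nat.add_le_add_right ?_ _
  rw [← hPc]
  exact card_image_le

lemma sum_Nw_le {D : Finset ℕ} {a : (p : ℕ) → ZMod p} {Y h G n : ℕ}
    (hD : ∀ p ∈ D, p.Prime ∧ Y ≤ p ∧ p ≤ 2 * Y) (hh : 1 ≤ h) (hG : G < Y)
    (hY : 2 * h * 2 ^ (2 * h - 1) < Y) :
    ∑ q ∈ D, (Nw D a h G n q).card ≤ (2 * h) * ((Dn D a n).card.choose h * G ^ h) ^ 2 := by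
  classical
  set R := Words h G (Dn D a n) with hR
  have hRc : R.card = (Dn D a n).card.choose h * G ^ h := card_Words _ _ _
  have hsub : Dn D a n ⊆ D := filter_subset _ _
  have h1 : ∀ q ∈ D, (Nw D a h G n q).card
      = ∑ x ∈ (R ×ˢ R).filter fun x => x.1 ≠ x.2, if (q : ℤ) ∣ wnum x.1 x.2 then 1 else 0 := by
    intro q _
    rw [Nw, ← filter_filter, card_filter]
  rw [sum_congr rfl h1, sum_comm]
  have h2 : ∀ x ∈ (R ×ˢ R).filter fun x => x.1 ≠ x.2,
      (∑ q ∈ D, if (q : ℤ) ∣ wnum x.1 x.2 then 1 else 0) ≤ 2 * h := by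
    intro x hx
    rw [mem_filter, mem_product] at hx
    rw [← card_filter]
    exact card_dvd_wnum_le hD hh hG hY (Words_mono hsub hx.1.1) (Words_mono hsub hx.1.2) hx.2
  refine (sum_le_card_nsmul _ _ _ h2).trans ?_
  rw [smul_eq_mul, mul_comm]
  refine Nat.mul_le_mul_left _ ?_
  refine (card_filter_le _ _).trans ?_
  rw [card_product, hRc, sq]

/-- the energy inequality, summed over the primes `q` -/
theorem energy_sum {D : Finset ℕ} {a : (p : ℕ) → ZMod p} {Y N h G n b : ℕ}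
    (hD : ∀ p ∈ D, p.Prime ∧ Y ≤ p ∧ p ≤ 2 * Y) (hh : 1 ≤ h) (hG1 : 1 ≤ G) (hG : G < Y)
    (hY : 2 * h * 2 ^ (2 * h - 1) < Y) (hn : n ∈ Icc 1 N) (hb : 2 * h ≤ b)
    (hb2 : 2 ^ h * h.factorial * (2 * (2 * (h * (G * (N / Y))) + 1)) ≤ (b * G) ^ h) :
    (∑ q ∈ (D \ Dn D a n).filter fun q => b ≤ (An D a N n q).card, (An D a N n q).card) ^ (2 * h)
      ≤ D.card ^ (2 * h - 1) * (4 ^ h * (2 * (2 * (h * (G * (N / Y))) + 1)) * (2 * h)
        * (Dn D a n).card ^ (2 * h)) := by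
  classical
  set L := 2 * (h * (G * (N / Y))) + 1 with hL
  set w : ℕ → ℕ := fun q => (An D a N n q).card with hw
  set Q := (D \ Dn D a n).filter fun q => b ≤ w q with hQ
  have hY0 : 0 < Y := by omega
  have hfac : 0 < h.factorial := Nat.factorial_pos h
  have hGh : 0 < G ^ h := pow_pos (by omega) _
  have hpt : ∀ q ∈ Q, G ^ (2 * h) * w q ^ (2 * h)
      ≤ 4 ^ h * h.factorial ^ 2 * (2 * L) * (Nw D a h G n q).card := by
    intro q hq
    rw [hQ, mem_filter, mem_sdiff] at hq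
    have he := energy_point (h := h) (G := G) (N := N) hD hY0 hn hq.1.1 hq.1.2
    rw [← hL] at he
    set m := (An D a N n q).card.choose h * G ^ h with hm
    have h1 : G ^ h * w q ^ h ≤ 2 ^ h * (h.factorial * m) := by
      have e1 : w q ≤ 2 * (w q + 1 - h) := by omega
      have e2 : w q ^ h ≤ 2 ^ h * (h.factorial * (An D a N n q).card.choose h) :=
        calc w q ^ h ≤ (2 * (w q + 1 - h)) ^ h := Nat.pow_le_pow_left e1 h
          _ = 2 ^ h * (w q + 1 - h) ^ h := mul_pow _ _ _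
          _ ≤ 2 ^ h * (w q).descFactorial h :=
              Nat.mul_le_mul_left _ (Nat.pow_sub_le_descFactorial _ _)
          _ = _ := by rw [Nat.descFactorial_eq_factorial_mul_choose]
      calc G ^ h * w q ^ h ≤ G ^ h * (2 ^ h * (h.factorial * (An D a N n q).card.choose h)) :=
            Nat.mul_le_mul_left _ e2
        _ = _ := by rw [hm]; ring
    have h2 : 2 * L ≤ m := by
      have e2 : 2 ^ h * h.factorial * (2 * L) ≤ 2 ^ h * h.factorial * m := by
        refine hb2.trans ((Nat.pow_le_pow_left (Nat.mul_le_mul_right G hq.2) h).trans ?_)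
        rw [mul_pow, mul_comm (w q ^ h)]
        refine h1.trans (le_of_eq ?_)
        ring
      exact Nat.le_of_mul_le_mul_left e2 (by positivity)
    have h3 : m ^ 2 ≤ 2 * L * (Nw D a h G n q).card := by nlinarith
    calc G ^ (2 * h) * w q ^ (2 * h) = (G ^ h * w q ^ h) ^ 2 := by
          rw [mul_pow, ← pow_mul, ← pow_mul, mul_comm h 2]
      _ ≤ (2 ^ h * (h.factorial * m)) ^ 2 := Nat.pow_le_pow_left h1 2
      _ = (2 ^ h) ^ 2 * h.factorial ^ 2 * m ^ 2 := by ring
      _ ≤ (2 ^ h) ^ 2 * h.factorial ^ 2 * (2 * L * (Nw D a h G n q).card) :=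
          Nat.mul_le_mul_left _ h3
      _ = _ := by
        have : (2 ^ h) ^ 2 = 4 ^ h := by rw [← pow_mul, mul_comm, pow_mul]; norm_num
        rw [this]; ring
  have hsumN : ∑ q ∈ Q, (Nw D a h G n q).card
      ≤ (2 * h) * ((Dn D a n).card.choose h * G ^ h) ^ 2 := by
    refine le_trans ?_ (sum_Nw_le (a := a) (n := n) hD hh hG hY)
    refine sum_le_sum_of_subset ?_
    exact (filter_subset _ _).trans sdiff_subset
  have hch : h.factorial * (Dn D a n).card.choose h ≤ (Dn D a n).card ^ h := by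
    rw [← Nat.descFactorial_eq_factorial_mul_choose]
    exact Nat.descFactorial_le_pow _ _
  have hpm : (∑ q ∈ Q, w q) ^ (2 * h) ≤ Q.card ^ (2 * h - 1) * ∑ q ∈ Q, w q ^ (2 * h) := by
    have := pow_sum_le_card_mul_sum_pow (s := Q) (f := w) (fun i _ => Nat.zero_le _) (2 * h - 1)
    rwa [Nat.sub_add_cancel (by omega)] at this
  refine hpm.trans (Nat.mul_le_mul (Nat.pow_le_pow_left ?_ _) ?_)
  · exact card_le_card ((filter_subset _ _).trans sdiff_subset)
  · suffices key : G ^ (2 * h) * ∑ q ∈ Q, w q ^ (2 * h)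
        ≤ G ^ (2 * h) * (4 ^ h * (2 * L) * (2 * h) * (Dn D a n).card ^ (2 * h)) from
      Nat.le_of_mul_le_mul_left key (pow_pos (by omega) _)
    rw [mul_sum]
    refine (sum_le_sum hpt).trans ?_
    rw [← mul_sum]
    calc 4 ^ h * h.factorial ^ 2 * (2 * L) * ∑ q ∈ Q, (Nw D a h G n q).card
        ≤ 4 ^ h * h.factorial ^ 2 * (2 * L)
            * ((2 * h) * ((Dn D a n).card.choose h * G ^ h) ^ 2) :=
          Nat.mul_le_mul_left _ hsumN
      _ = G ^ (2 * h) * (4 ^ h * (2 * L) * (2 * h)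
            * (h.factorial * (Dn D a n).card.choose h) ^ 2) := by
          rw [mul_comm 2 h, pow_mul]; ring
      _ ≤ G ^ (2 * h) * (4 ^ h * (2 * L) * (2 * h) * ((Dn D a n).card ^ h) ^ 2) :=
          Nat.mul_le_mul_left _ (Nat.mul_le_mul_left _ (Nat.pow_le_pow_left hch 2))
      _ = _ := by rw [← pow_mul, mul_comm h 2]

theorem bush {D : Finset ℕ} {a : (p : ℕ) → ZMod p} {Y N h G c b : ℕ}
    (hD : ∀ p ∈ D, p.Prime ∧ Y ≤ p ∧ p ≤ 2 * Y) (hh : 1 ≤ h) (hG1 : 1 ≤ G) (hG : G < Y)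
    (hY : 2 * h * 2 ^ (2 * h - 1) < Y) (hN : N < Y ^ 2)
    (hc : ∀ p ∈ D, c + 1 ≤ (Cl N a p).card) (hb : 2 * h ≤ b)
    (hb2 : 2 ^ h * h.factorial * (2 * (2 * (h * (G * (N / Y))) + 1)) ≤ (b * G) ^ h) :
    c * D.card ≤ 3 * (Cov D a N).card ∨ c ^ 3 * D.card ≤ 3 * b * (Cov D a N).card ^ 2 ∨
      c ^ (4 * h) * D.card ≤ (3 * (Cov D a N).card) ^ (2 * h) *
        (4 ^ h * (2 * (2 * (h * (G * (N / Y))) + 1)) * (2 * h)) := by
  classical
  rcases Nat.eq_zero_or_pos D.card with hd0 | hd0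
  · left; rw [hd0]; omega
  rcases Nat.eq_zero_or_pos c with hc0 | hc0
  · left; rw [hc0]; omega
  set C0 := 4 ^ h * (2 * (2 * (h * (G * (N / Y))) + 1)) * (2 * h) with hC0
  set S := Cov D a N with hS
  set r : ℕ → ℕ := fun n => (Dn D a n).card with hr
  set W : ℕ → ℕ := fun n => ∑ q ∈ D \ Dn D a n, (An D a N n q).card with hW
  have hSI : S ⊆ Icc 1 N := filter_subset _ _
  -- the real number E
  set E : ℝ := ((D.card ^ (2 * h - 1) * C0 : ℕ) : ℝ) ^ (((2 * h : ℕ) : ℝ)⁻¹) with hE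
  have hE0 : 0 ≤ E := Real.rpow_nonneg (Nat.cast_nonneg _) _
  have hEp : E ^ (2 * h) = ((D.card ^ (2 * h - 1) * C0 : ℕ) : ℝ) :=
    Real.rpow_inv_natCast_pow (Nat.cast_nonneg _) (by omega)
  have hWn : ∀ n ∈ Icc 1 N, (W n : ℝ) ≤ D.card * b + E * r n := by
    intro n hn
    have hes := energy_sum (a := a) (n := n) hD hh hG1 hG hY hn hb hb2
    set Q := (D \ Dn D a n).filter fun q => b ≤ (An D a N n q).card with hQ
    have h1 : ((∑ q ∈ Q, (An D a N n q).card : ℕ) : ℝ) ≤ E * r n := by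
      refine le_of_pow_le_pow_left₀ (n := 2 * h) (by omega) (by positivity) ?_
      rw [mul_pow, hEp]
      have : ((∑ q ∈ Q, (An D a N n q).card) ^ (2 * h) : ℕ)
          ≤ D.card ^ (2 * h - 1) * C0 * r n ^ (2 * h) := by
        refine hes.trans (le_of_eq ?_)
        rw [hC0, hr]
        ring
      exact_mod_cast this
    have h2 : W n ≤ D.card * b + ∑ q ∈ Q, (An D a N n q).card := by
      rw [hW]
      dsimp only
      rw [← sum_filter_add_sum_filter_not (D \ Dn D a n) (fun q => b ≤ (An D a N n q).card),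
        add_comm]
      refine Nat.add_le_add_right ?_ _
      refine (sum_le_card_nsmul _ _ b fun q hq => ?_).trans ?_
      · have := (mem_filter.mp hq).2
        omega
      · rw [smul_eq_mul]
        refine Nat.mul_le_mul_right _ (card_le_card ?_)
        exact (filter_subset _ _).trans sdiff_subset
    have h3 : (W n : ℝ) ≤ D.card * b + ((∑ q ∈ Q, (An D a N n q).card : ℕ) : ℝ) := by
      exact_mod_cast h2
    linarith
  have hW0 : ∀ n ∈ Icc 1 N, n ∉ S → W n = 0 := by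
    intro n hn hnS
    have h0 := Dn_eq_empty hn hnS
    rw [hW]
    refine sum_eq_zero fun q _ => ?_
    rw [An, h0]
    simp
  have hr0 : ∀ n ∈ Icc 1 N, n ∉ S → r n = 0 := by
    intro n hn hnS
    rw [hr]
    dsimp only
    rw [Dn_eq_empty hn hnS]
    simp
  set I := ∑ n ∈ Icc 1 N, r n with hI
  have hIS : I = ∑ n ∈ S, r n := (sum_subset hSI hr0).symm
  have hIc : c * D.card ≤ I := by
    rw [hI, hr, sum_card_Dn, mul_comm, ← smul_eq_mul]
    exact card_nsmul_le_sum _ _ _ fun p hp => by have := hc p hp; omega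
  have hsumW : ((∑ n ∈ Icc 1 N, W n : ℕ) : ℝ) ≤ S.card * (D.card * b) + E * I := by
    rw [← sum_subset hSI hW0, hIS]
    push_cast
    rw [mul_sum, ← nsmul_eq_mul, ← sum_const, ← sum_add_distrib]
    exact sum_le_sum fun n hn => hWn n (hSI hn)
  have hdc := double_count (a := a) hD hN hc
  have hsq : I ^ 2 ≤ S.card * ∑ n ∈ S, r n ^ 2 := by
    rw [hIS]
    exact sq_sum_le_card_mul_sum_sq
  have hsqI : ∑ n ∈ S, r n ^ 2 ≤ ∑ n ∈ Icc 1 N, (r n * r n - r n) + I := by
    rw [hI, ← sum_add_distrib]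
    refine (sum_le_sum_of_subset hSI).trans (sum_le_sum fun n _ => ?_)
    rw [sq]
    omega
  -- real form
  have hR1 : (c : ℝ) * ((∑ n ∈ Icc 1 N, (r n * r n - r n) : ℕ) : ℝ)
      ≤ S.card * (D.card * b) + E * I := by
    refine le_trans ?_ hsumW
    exact_mod_cast hdc
  have hR2 : (I : ℝ) ^ 2 ≤ S.card * (((∑ n ∈ Icc 1 N, (r n * r n - r n) : ℕ) : ℝ) + I) := by
    have : I ^ 2 ≤ S.card * (∑ n ∈ Icc 1 N, (r n * r n - r n) + I) :=
      hsq.trans (Nat.mul_le_mul_left _ hsqI)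
    exact_mod_cast this
  generalize ((∑ n ∈ Icc 1 N, (r n * r n - r n) : ℕ) : ℝ) = R at hR1 hR2
  have hcI : (c : ℝ) * D.card ≤ I := by exact_mod_cast hIc
  have hcR : (1 : ℝ) ≤ c := by exact_mod_cast hc0
  have hdR : (1 : ℝ) ≤ D.card := by exact_mod_cast hd0
  have hIpos : (0 : ℝ) < I := lt_of_lt_of_le (by positivity) hcI
  have hs0 : (0 : ℝ) ≤ S.card := Nat.cast_nonneg _
  have hb0 : (0 : ℝ) ≤ b := Nat.cast_nonneg _
  have hmain : (c : ℝ) * I ^ 2 ≤ c * S.card * I + S.card ^ 2 * D.card * b + S.card * E * I := by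
    have e1 : (c : ℝ) * I ^ 2 ≤ c * (S.card * (R + I)) := mul_le_mul_of_nonneg_left hR2 (by positivity)
    have e2 : (S.card : ℝ) * (c * R) ≤ S.card * (S.card * (D.card * b) + E * I) :=
      mul_le_mul_of_nonneg_left hR1 hs0
    nlinarith
  have hfin := final_real hcR hdR hcI hmain
  rcases hfin with h1 | h1 | h1
  · left; exact_mod_cast h1
  · right; left; exact_mod_cast h1
  · right; right
    have h2 : (c ^ 2 * D.card : ℝ) ^ (2 * h) ≤ (3 * S.card * E) ^ (2 * h) :=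
      pow_le_pow_left₀ (by positivity) h1 _
    rw [mul_pow (3 * (S.card : ℝ)) E, hEp] at h2
    have h3 : (c ^ 2 * D.card) ^ (2 * h) ≤ (3 * S.card) ^ (2 * h) * (D.card ^ (2 * h - 1) * C0) := by
      exact_mod_cast h2
    have e2 : (c ^ 2 * D.card) ^ (2 * h) = (c ^ (4 * h) * D.card) * D.card ^ (2 * h - 1) := by
      rw [mul_pow, ← pow_mul, mul_assoc, ← pow_succ']
      congr 2
      · ring
      · omega
    have e3 : (3 * S.card) ^ (2 * h) * (D.card ^ (2 * h - 1) * C0)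
        = ((3 * S.card) ^ (2 * h) * C0) * D.card ^ (2 * h - 1) := by ring
    rw [e2, e3] at h3
    exact Nat.le_of_mul_le_mul_right h3 (pow_pos hd0 _)

end Pool.Agent.V7H13.BB
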