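import Pool.Agent.H170R2.PC.Main

/-!
Energy of sums of reciprocals with positive integer coefficients.  A word is an `h`-set `T` of primes
with coefficients `1 ≤ c_p ≤ G`, `p ∈ T`; `wnum w w'` is the numerator of
`∑ c_p / p - ∑ c'_p / p` over the common denominator `∏_{p ∈ T ∪ T'} p`.
-/

open Finset

namespace Pool.Agent.V7H13.BB

open Pool.Agent.H170R2.PC

/-- words: `h`-subsets of `A` with coefficients in `[1, G]` -/
def Words (h G : ℕ) (A : Finset ℕ) : Finset ((T : Finset ℕ) × ((p : ℕ) → p ∈ T → ℕ)) :=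
  (powersetCard h A).sigma fun T => T.pi fun _ => Icc 1 G

/-- the coefficient of the prime `p` in a word -/
def co (w : (T : Finset ℕ) × ((p : ℕ) → p ∈ T → ℕ)) (p : ℕ) : ℤ :=
  if hp : p ∈ w.1 then ((w.2 p hp : ℕ) : ℤ) else 0

lemma mem_Words {h G : ℕ} {A : Finset ℕ} {w : (T : Finset ℕ) × ((p : ℕ) → p ∈ T → ℕ)} :
    w ∈ Words h G A ↔ (w.1 ⊆ A ∧ w.1.card = h) ∧ ∀ p (hp : p ∈ w.1), w.2 p hp ∈ Icc 1 G := by
  rw [Words, mem_sigma, mem_powersetCard, mem_pi]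

lemma card_Words (h G : ℕ) (A : Finset ℕ) : (Words h G A).card = A.card.choose h * G ^ h := by
  rw [Words, card_sigma]
  have : ∀ T ∈ powersetCard h A, (T.pi fun _ => Icc 1 G).card = G ^ h := by
    intro T hT
    rw [card_pi]
    simp [(mem_powersetCard.mp hT).2]
  rw [sum_congr rfl this, sum_const, card_powersetCard, smul_eq_mul]

lemma Words_mono {h G : ℕ} {A B : Finset ℕ} (hAB : A ⊆ B) : Words h G A ⊆ Words h G B := by
  intro w hw
  rw [mem_Words] at hw ⊢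
  exact ⟨⟨hw.1.1.trans hAB, hw.1.2⟩, hw.2⟩

lemma co_bounds {h G : ℕ} {A : Finset ℕ} {w : (T : Finset ℕ) × ((p : ℕ) → p ∈ T → ℕ)}
    (hw : w ∈ Words h G A) (p : ℕ) : 0 ≤ co w p ∧ co w p ≤ G := by
  unfold co
  split_ifs with hp
  · have := mem_Icc.mp ((mem_Words.mp hw).2 p hp)
    constructor
    · positivity
    · exact_mod_cast this.2
  · constructor
    · exact le_rfl
    · positivity

lemma co_pos {h G : ℕ} {A : Finset ℕ} {w : (T : Finset ℕ) × ((p : ℕ) → p ∈ T → ℕ)}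
    (hw : w ∈ Words h G A) {p : ℕ} (hp : p ∈ w.1) : 0 < co w p := by
  unfold co
  rw [dif_pos hp]
  have := mem_Icc.mp ((mem_Words.mp hw).2 p hp)
  exact_mod_cast this.1

lemma co_zero {w : (T : Finset ℕ) × ((p : ℕ) → p ∈ T → ℕ)} {p : ℕ} (hp : p ∉ w.1) :
    co w p = 0 := by
  unfold co
  rw [dif_neg hp]

lemma co_inj {h G : ℕ} {A B : Finset ℕ} {w w' : (T : Finset ℕ) × ((p : ℕ) → p ∈ T → ℕ)}
    (hw : w ∈ Words h G A) (hw' : w' ∈ Words h G B) (hc : ∀ p, co w p = co w' p) : w = w' := by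
  have hT : w.1 = w'.1 := by
    ext p
    constructor
    · intro hp
      by_contra hp'
      have := co_pos hw hp
      rw [hc, co_zero hp'] at this
      exact lt_irrefl _ this
    · intro hp
      by_contra hp'
      have := co_pos hw' hp
      rw [← hc, co_zero hp'] at this
      exact lt_irrefl _ this
  obtain ⟨T, g⟩ := w
  obtain ⟨T', g'⟩ := w'
  dsimp only at hT
  subst hT
  congr 1
  funext p hp
  have := hc p
  unfold co at this
  dsimp only at this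
  rw [dif_pos hp, dif_pos hp] at this
  exact_mod_cast this

/-- numerator of the difference of two words -/
def wnum (w w' : (T : Finset ℕ) × ((p : ℕ) → p ∈ T → ℕ)) : ℤ :=
  ∑ p ∈ w.1 ∪ w'.1, (co w p - co w' p) * ∏ x ∈ (w.1 ∪ w'.1).erase p, (x : ℤ)

lemma wnum_ne_zero {h G : ℕ} {A : Finset ℕ} {w w' : (T : Finset ℕ) × ((p : ℕ) → p ∈ T → ℕ)}
    (hA : ∀ p ∈ A, p.Prime ∧ G < p) (hw : w ∈ Words h G A) (hw' : w' ∈ Words h G A)
    (hne : w ≠ w') : wnum w w' ≠ 0 := by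
  obtain ⟨p, hp⟩ : ∃ p, co w p ≠ co w' p := by
    by_contra hcon
    push Not at hcon
    exact hne (co_inj hw hw' hcon)
  have hsubA : w.1 ∪ w'.1 ⊆ A := union_subset (mem_Words.mp hw).1.1 (mem_Words.mp hw').1.1
  have hpU : p ∈ w.1 ∪ w'.1 := by
    by_contra hcon
    rw [mem_union, not_or] at hcon
    exact hp (by rw [co_zero hcon.1, co_zero hcon.2])
  have hpp : Prime (p : ℤ) := Nat.prime_iff_prime_int.mp (hA p (hsubA hpU)).1
  intro h0
  unfold wnum at h0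
  rw [← add_sum_erase _ _ hpU] at h0
  have h1 : (p : ℤ) ∣ ∑ y ∈ (w.1 ∪ w'.1).erase p,
      (co w y - co w' y) * ∏ x ∈ (w.1 ∪ w'.1).erase y, (x : ℤ) := by
    refine dvd_sum fun y hy => ?_
    refine Dvd.dvd.mul_left ?_ _
    exact dvd_prod_of_mem (fun x : ℕ => (x : ℤ))
      (mem_erase.mpr ⟨(ne_of_mem_erase hy).symm, hpU⟩)
  have h2 : (p : ℤ) ∣ (co w p - co w' p) * ∏ x ∈ (w.1 ∪ w'.1).erase p, (x : ℤ) := by
    have : (co w p - co w' p) * ∏ x ∈ (w.1 ∪ w'.1).erase p, (x : ℤ)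
        = - ∑ y ∈ (w.1 ∪ w'.1).erase p,
          (co w y - co w' y) * ∏ x ∈ (w.1 ∪ w'.1).erase y, (x : ℤ) := by linarith
    rw [this]
    exact (dvd_neg).mpr h1
  rcases hpp.dvd_or_dvd h2 with h3 | h3
  · have b1 := co_bounds hw p
    have b2 := co_bounds hw' p
    have hlt : |co w p - co w' p| < p := by
      have hG : (G : ℤ) < p := by exact_mod_cast (hA p (hsubA hpU)).2
      rw [abs_lt]
      constructor <;> linarith [b1.1, b1.2, b2.1, b2.2]
    have := Int.eq_zero_of_abs_lt_dvd h3 hlt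
    exact hp (by linarith)
  · obtain ⟨x, hx, hxd⟩ := (Prime.dvd_finsetProd_iff hpp _).mp h3
    have hx' := mem_erase.mp hx
    have hxp := (hA x (hsubA hx'.2)).1
    have : p ∣ x := by exact_mod_cast hxd
    exact hx'.1 ((Nat.prime_dvd_prime_iff_eq (hA p (hsubA hpU)).1 hxp).mp this).symm

/-- the key congruence -/
lemma dvd_wnum {q : ℕ} (hq : q.Prime) {c : ZMod q} (hc : c ≠ 0)
    {w w' : (T : Finset ℕ) × ((p : ℕ) → p ∈ T → ℕ)} {k : ℕ → ℤ}
    (hk : ∀ p ∈ w.1 ∪ w'.1, (k p : ZMod q) * (p : ZMod q) = c)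
    (hs : ∑ p ∈ w.1 ∪ w'.1, co w p * k p = ∑ p ∈ w.1 ∪ w'.1, co w' p * k p) :
    (q : ℤ) ∣ wnum w w' := by
  have : Fact q.Prime := ⟨hq⟩
  rw [← ZMod.intCast_zmod_eq_zero_iff_dvd]
  have h1 : c * ((wnum w w' : ℤ) : ZMod q) = 0 := by
    unfold wnum
    push_cast
    rw [mul_sum]
    have e1 : ∀ p ∈ w.1 ∪ w'.1,
        c * (((co w p : ℤ) - (co w' p : ℤ) : ZMod q) * ∏ x ∈ (w.1 ∪ w'.1).erase p, (x : ZMod q))
        = (((co w p - co w' p) * k p : ℤ) : ZMod q) * ∏ x ∈ w.1 ∪ w'.1, (x : ZMod q) := by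
      intro p hp
      rw [← mul_prod_erase (w.1 ∪ w'.1) (fun x => (x : ZMod q)) hp, ← hk p hp]
      push_cast
      ring
    rw [sum_congr rfl e1, ← sum_mul, ← Int.cast_sum]
    have e2 : ∑ p ∈ w.1 ∪ w'.1, (co w p - co w' p) * k p = 0 := by
      rw [← sub_eq_zero, ← sum_sub_distrib] at hs
      rw [← hs]
      exact sum_congr rfl fun p _ => by ring
    rw [e2]
    simp
  exact (mul_eq_zero.mp h1).resolve_left hc

lemma abs_wnum_le {h G M : ℕ} {A : Finset ℕ} (hM : 1 ≤ M)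
    {w w' : (T : Finset ℕ) × ((p : ℕ) → p ∈ T → ℕ)}
    (hA : ∀ p ∈ A, p ≤ M) (hw : w ∈ Words h G A) (hw' : w' ∈ Words h G A) :
    |wnum w w'| ≤ (2 * h : ℕ) * (G * (M : ℤ) ^ (2 * h - 1)) := by
  have hsubA : w.1 ∪ w'.1 ⊆ A := union_subset (mem_Words.mp hw).1.1 (mem_Words.mp hw').1.1
  have hcard : (w.1 ∪ w'.1).card ≤ 2 * h := by
    have := card_union_le w.1 w'.1
    have h1 := (mem_Words.mp hw).1.2
    have h2 := (mem_Words.mp hw').1.2
    omega
  have hterm : ∀ p ∈ w.1 ∪ w'.1,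
      |(co w p - co w' p) * ∏ x ∈ (w.1 ∪ w'.1).erase p, (x : ℤ)|
        ≤ G * (M : ℤ) ^ (2 * h - 1) := by
    intro p hp
    rw [abs_mul]
    have b1 := co_bounds hw p
    have b2 := co_bounds hw' p
    have e1 : |co w p - co w' p| ≤ G := by
      rw [abs_le]
      constructor <;> linarith [b1.1, b1.2, b2.1, b2.2]
    have e2 : |∏ x ∈ (w.1 ∪ w'.1).erase p, (x : ℤ)| ≤ (M : ℤ) ^ (2 * h - 1) := by
      rw [abs_of_nonneg (prod_nonneg fun x _ => by positivity)]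
      have h1 : ∏ x ∈ (w.1 ∪ w'.1).erase p, (x : ℤ) ≤ ∏ x ∈ (w.1 ∪ w'.1).erase p, (M : ℤ) := by
        refine prod_le_prod (fun x _ => by positivity) fun x hx => ?_
        exact_mod_cast hA x (hsubA (mem_of_mem_erase hx))
      refine h1.trans ?_
      rw [prod_const]
      refine pow_le_pow_right₀ (by exact_mod_cast hM) ?_
      have := card_erase_of_mem hp
      omega
    exact mul_le_mul e1 e2 (abs_nonneg _) (by positivity)
  unfold wnum
  refine (abs_sum_le_sum_abs _ _).trans ((sum_le_card_nsmul _ _ _ hterm).trans ?_)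
  rw [nsmul_eq_mul]
  refine mul_le_mul_of_nonneg_right (by exact_mod_cast hcard) (by positivity)

/-- few primes of the dyadic range divide the numerator -/
lemma card_dvd_wnum_le {D : Finset ℕ} {Y h G : ℕ} (hD : ∀ p ∈ D, p.Prime ∧ Y ≤ p ∧ p ≤ 2 * Y)
    (hh : 1 ≤ h) (hG : G < Y) (hY : 2 * h * 2 ^ (2 * h - 1) < Y)
    {w w' : (T : Finset ℕ) × ((p : ℕ) → p ∈ T → ℕ)}
    (hw : w ∈ Words h G D) (hw' : w' ∈ Words h G D) (hne : w ≠ w') :
    (D.filter fun q : ℕ => (q : ℤ) ∣ wnum w w').card ≤ 2 * h := by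
  by_contra hcon
  push Not at hcon
  obtain ⟨E, hE, hEc⟩ := exists_subset_card_eq (s := D.filter fun q : ℕ => (q : ℤ) ∣ wnum w w')
    (n := 2 * h + 1) (by omega)
  have hne0 : wnum w w' ≠ 0 := wnum_ne_zero
    (fun p hp => ⟨(hD p hp).1, hG.trans_le (hD p hp).2.1⟩) hw hw' hne
  have hdv : (∏ q ∈ E, q) ∣ (wnum w w').natAbs := by
    refine prod_primes_dvd _ (fun q hq => ?_) fun q hq => ?_
    · exact (hD q (mem_filter.mp (hE hq)).1).1.prime
    · exact Int.natCast_dvd.mp (mem_filter.mp (hE hq)).2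
  have h1 : ∏ q ∈ E, q ≤ (wnum w w').natAbs :=
    Nat.le_of_dvd (Int.natAbs_pos.mpr hne0) hdv
  have h2 : Y ^ (2 * h + 1) ≤ ∏ q ∈ E, q := by
    rw [← hEc, ← prod_const]
    exact prod_le_prod' fun q hq => (hD q (mem_filter.mp (hE hq)).1).2.1
  have h3 := abs_wnum_le (M := 2 * Y) (by omega) (fun p hp => (hD p hp).2.2) hw hw'
  have h4 : ((wnum w w').natAbs : ℤ)
      ≤ ((2 * h : ℕ) : ℤ) * ((G : ℤ) * ((2 * Y : ℕ) : ℤ) ^ (2 * h - 1)) := by
    rw [Int.natCast_natAbs]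
    exact h3
  have h5 : (wnum w w').natAbs ≤ (2 * h) * (G * (2 * Y) ^ (2 * h - 1)) := by exact_mod_cast h4
  have h6 : Y ^ (2 * h + 1) ≤ (2 * h) * (G * (2 * Y) ^ (2 * h - 1)) := h2.trans (h1.trans h5)
  have h7 : Y ^ (2 * h + 1) = Y * Y * Y ^ (2 * h - 1) := by
    rw [mul_assoc, ← pow_succ', ← pow_succ']
    congr 1
    omega
  rw [h7, mul_pow] at h6
  have h8 : 0 < Y ^ (2 * h - 1) := pow_pos (by omega) _
  have h9 : Y * Y ≤ 2 * h * 2 ^ (2 * h - 1) * G := by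
    have e : (2 * h) * (G * (2 ^ (2 * h - 1) * Y ^ (2 * h - 1)))
        = (2 * h * 2 ^ (2 * h - 1) * G) * Y ^ (2 * h - 1) := by ring
    rw [e] at h6
    exact Nat.le_of_mul_le_mul_right h6 h8
  have h10 : 2 * h * 2 ^ (2 * h - 1) * G ≤ 2 * h * 2 ^ (2 * h - 1) * Y :=
    Nat.mul_le_mul_left _ hG.le
  have h11 : 2 * h * 2 ^ (2 * h - 1) * Y < Y * Y := Nat.mul_lt_mul_of_pos_right hY (by omega)
  omega

end Pool.Agent.V7H13.BB
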